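import Pool.Agent.Helper69.GU.Defs
import Pool.Agent.Helper51.GT.Lib

set_option autoImplicit false

/-! Module UNIU: unitarity. -/

namespace Pool.Agent.Helper69.GU

open Polynomial
open Pool.Agent.Helper51.GT (Mat PMat fr Dat dg Zm)
open Pool.Agent.Helper51.GT.Lib

variable {K : Type} [Field K] {φ : K ≃+* K}

noncomputable def uniuE (φ : K ≃+* K) (n : ℕ) (a : K) : Mat K := dg φ a * Zm ^ n

theorem uniu_Zpow (h : Dat φ) (m : ℕ) (a : K) :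
    (Zm : Mat K) ^ m * dg φ a = dg φ (fr φ (2 * m) a) * Zm ^ m := by
  induction m generalizing a with
  | zero => simp [fr_zero]
  | succ m ih =>
    rw [pow_succ, mul_assoc, Zm_dg h, ← mul_assoc, ih, mul_assoc, ← pow_succ, fr_fr]
    congr 3

theorem uniuE_mul (h : Dat φ) (m n : ℕ) (a b : K) :
    uniuE φ m a * uniuE φ n b = uniuE φ (m + n) (a * fr φ (2 * m) b) := by
  unfold uniuE
  rw [mul_assoc, ← mul_assoc (Zm ^ m), uniu_Zpow h, mul_assoc, ← pow_add, ← mul_assoc, dg_mul]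

theorem uniuE_add (n : ℕ) (a b : K) : uniuE φ n a + uniuE φ n b = uniuE φ n (a + b) := by
  unfold uniuE
  rw [← add_mul, dg_add]

theorem uniuE_zero (n : ℕ) : uniuE φ n 0 = 0 := by
  unfold uniuE
  have : dg φ (0 : K) = 0 := by simp [dg]
  rw [this, zero_mul]

theorem uniu_Z4 : (Zm : Mat K) ^ 4 = (X : K[X]) • (1 : Mat K) := by
  rw [← Z4]; noncomm_ring

theorem uniuE_X (n : ℕ) (a : K) : (X : K[X]) • uniuE φ n a = uniuE φ (n + 4) a := by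
  unfold uniuE
  rw [pow_add, uniu_Z4, mul_smul_comm, mul_one, mul_smul_comm]

theorem uniu_th (ρ : K) (p : K × K) : th φ ρ p =
    uniuE φ 0 p.1 + uniuE φ 1 (tt φ p) + uniuE φ 2 (ρ * fr φ 2 p.1) := by
  unfold th uniuE
  rw [pow_zero, pow_one, mul_one, pow_two]

theorem uniu_Z2e : (Zm : Mat K) ^ 2 = !![0, 0, 1, 0; 0, 0, 0, 1; X, 0, 0, 0; 0, X, 0, 0] := by
  rw [pow_two]
  refine Matrix.ext fun i j => ?_
  fin_cases i <;> fin_cases j <;> simp [Zm]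

theorem uniu_Z3e : (Zm : Mat K) ^ 3 = !![0, 0, 0, 1; X, 0, 0, 0; 0, X, 0, 0; 0, 0, X, 0] := by
  rw [pow_succ, uniu_Z2e]
  refine Matrix.ext fun i j => ?_
  fin_cases i <;> fin_cases j <;> simp [Zm]

theorem uniu_fl (h : Dat φ) (ρ : K) (p : K × K) : fl 1 (th φ ρ p) =
    uniuE φ 4 p.1 + uniuE φ 3 (fr φ 6 (tt φ p)) + uniuE φ 2 (fr φ 4 (ρ * fr φ 2 p.1)) := by
  have h8 : ∀ x : K, fr φ 8 x = x := h.ord
  have h10 : ∀ x : K, fr φ 10 x = fr φ 2 x := fun x => fr_add8 h 2 x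
  have h12 : ∀ x : K, fr φ 12 x = fr φ 4 x := fun x => fr_add8 h 4 x
  have r1 : ∀ a : K, reflect 1 (C a : K[X]) = C a * X := by
    intro a; simp
  have r2 : ∀ a : K, reflect 1 (C a * X : K[X]) = C a := by
    intro a
    have := reflect_C_mul_X_pow 1 1 (c := a)
    rw [pow_one] at this
    rw [this]; simp [revAt_le]
  rw [uniu_th]
  generalize ρ * fr φ 2 p.1 = m
  generalize tt φ p = t
  unfold uniuE
  rw [uniu_Z4, uniu_Z3e, uniu_Z2e, pow_one, pow_zero, mul_one]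
  refine Matrix.ext fun i j => ?_
  unfold fl dg
  rw [Matrix.of_apply]
  simp only [Matrix.add_apply, Matrix.diagonal_mul, Matrix.smul_apply, Matrix.one_apply,
    Matrix.diagonal_apply]
  fin_cases i <;> fin_cases j <;>
    simp [Zm, r1, r2, fr_fr, fr_zero, h8, h10, h12]

theorem uniu_Hm (ρ : K) : Hm φ ρ = uniuE φ 3 (1 + ρ⁻¹) + uniuE φ 5 (1 + ρ) := rfl

theorem uniu_Hn (ρ : K) : Hn φ ρ = uniuE φ 1 (1 + ρ) + uniuE φ 3 (ρ + ρ ^ 2) +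
    uniuE φ 5 (ρ⁻¹ + ρ⁻¹ ^ 2) + uniuE φ 7 (1 + ρ⁻¹) := by
  unfold Hn uniuE
  rw [pow_one]

theorem uniu_det (h : Dat φ) {ρ : K} (hρ : Rho φ ρ) : (Hm φ ρ).det ≠ 0 := by
  have hρ0 : ρ ≠ 0 := by
    rintro rfl
    have := hρ.mul
    rw [zero_mul] at this
    exact zero_ne_one this
  have hr2 : fr φ 2 ρ = ρ⁻¹ := eq_inv_of_mul_eq_one_right hρ.mul
  have hr4 : fr φ 4 ρ = ρ := by
    have : fr φ 4 ρ = fr φ 2 (fr φ 2 ρ) := by rw [fr_fr]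
    rw [this, hr2, map_inv₀, hr2, inv_inv]
  have hr6 : fr φ 6 ρ = ρ⁻¹ := by
    have : fr φ 6 ρ = fr φ 2 (fr φ 4 ρ) := by rw [fr_fr]
    rw [this, hr4, hr2]
  have hb : (1 + ρ) ≠ 0 := by
    intro h0
    apply hρ.ne
    rw [← neg_eq h ρ]
    linear_combination (-1 : K) * h0
  have hb1 : (1 + ρ⁻¹) ≠ 0 := by
    intro h0
    apply hb
    have : ρ * (1 + ρ⁻¹) = 0 := by rw [h0, mul_zero]
    rw [mul_add, mul_inv_cancel₀ hρ0, mul_one] at this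
    rw [add_comm]; exact this
  generalize hbb : (1 + ρ) = b at *
  generalize hbb1 : (1 + ρ⁻¹) = b1 at *
  have f2b : fr φ 2 b = b1 := by rw [← hbb, ← hbb1, map_add, map_one, hr2]
  have f4b : fr φ 4 b = b := by rw [← hbb, map_add, map_one, hr4]
  have f6b : fr φ 6 b = b1 := by rw [← hbb, ← hbb1, map_add, map_one, hr6]
  have f2c : fr φ 2 b1 = b := by rw [← hbb, ← hbb1, map_add, map_one, map_inv₀, hr2, inv_inv]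
  have f4c : fr φ 4 b1 = b1 := by rw [← hbb1, map_add, map_one, map_inv₀, hr4]
  have f6c : fr φ 6 b1 = b := by rw [← hbb, ← hbb1, map_add, map_one, map_inv₀, hr6, inv_inv]
  have hZ5 : (Zm : Mat K) ^ 5 = (X : K[X]) • Zm := by
    rw [pow_succ, uniu_Z4, smul_mul_assoc, one_mul]
  have hH : Hm φ ρ = !![0, C b * X, 0, C b1; C b * X, 0, C b1 * X, 0; 0, C b1 * X, 0, C b * X;
      C b1 * X ^ 2, 0, C b * X, 0] := by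
    unfold Hm
    rw [hbb, hbb1, hZ5, uniu_Z3e]
    refine Matrix.ext fun i j => ?_
    unfold dg
    simp only [Matrix.add_apply, Matrix.diagonal_mul, Matrix.smul_apply]
    fin_cases i <;> fin_cases j <;>
      simp [Zm, fr_zero, f2b, f4b, f6b, f2c, f4c, f6c, pow_two]
  have hdet : (Hm φ ρ).det =
      X ^ 3 * ((C (b ^ 2) * X - C (b1 ^ 2)) * (C (b ^ 2) - C (b1 ^ 2) * X)) := by
    rw [hH, Matrix.det_succ_row_zero]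
    simp [Fin.sum_univ_succ, Matrix.det_fin_three, Matrix.submatrix, Fin.succAbove]
    ring
  rw [hdet]
  refine mul_ne_zero (pow_ne_zero _ X_ne_zero) (mul_ne_zero ?_ ?_)
  · intro h0
    have := congrArg (fun q => eval 0 q) h0
    simp at this
    exact hb1 this
  · intro h0
    have := congrArg (fun q => eval 0 q) h0
    simp at this
    exact hb this

theorem uniu_expand (h : Dat φ) (a t m b c : K) :
    (uniuE φ 4 a + uniuE φ 3 (fr φ 6 t) + uniuE φ 2 (fr φ 4 m)) * (uniuE φ 3 c + uniuE φ 5 b) *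
      (uniuE φ 0 a + uniuE φ 1 t + uniuE φ 2 m) =
    uniuE φ 5 (fr φ 4 m * fr φ 4 c * fr φ 2 a) +
    uniuE φ 6 (fr φ 6 t * fr φ 6 c * fr φ 4 a + fr φ 4 m * fr φ 4 c * fr φ 2 t) +
    uniuE φ 7 (a * c * fr φ 6 a + fr φ 6 t * fr φ 6 c * fr φ 4 t +
      (fr φ 4 m * fr φ 4 c * fr φ 2 m + fr φ 4 m * fr φ 4 b * fr φ 6 a)) +
    uniuE φ 8 (a * c * fr φ 6 t + fr φ 6 t * fr φ 6 c * fr φ 4 m +
      (fr φ 6 t * fr φ 6 b * a + fr φ 4 m * fr φ 4 b * fr φ 6 t)) +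
    uniuE φ 9 (a * c * fr φ 6 m + a * b * fr φ 2 a + (fr φ 6 t * fr φ 6 b * t +
      fr φ 4 m * fr φ 4 b * fr φ 6 m)) +
    uniuE φ 10 (a * b * fr φ 2 t + fr φ 6 t * fr φ 6 b * m) +
    uniuE φ 11 (a * b * fr φ 2 m) := by
  have h8 : ∀ x : K, fr φ 8 x = x := h.ord
  have h10 : ∀ x : K, fr φ 10 x = fr φ 2 x := fun x => fr_add8 h 2 x
  have h12 : ∀ x : K, fr φ 12 x = fr φ 4 x := fun x => fr_add8 h 4 x
  have h14 : ∀ x : K, fr φ 14 x = fr φ 6 x := fun x => fr_add8 h 6 x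
  have h16 : ∀ x : K, fr φ 16 x = x := fun x => (fr_add8 h 8 x).trans (h8 x)
  have h18 : ∀ x : K, fr φ 18 x = fr φ 2 x := fun x => (fr_add8 h 10 x).trans (h10 x)
  simp only [mul_add, add_mul, uniuE_mul h, ← uniuE_add, Nat.reduceMul, Nat.reduceAdd,
    h8, h10, h12, h14, h16, h18]
  abel

theorem st_UNIU : ST_UNIU := by
  intro K _ φ ρ h hρ
  refine ⟨uniu_det h hρ, ?_⟩
  rintro ⟨a, τ⟩ ⟨ha2, hane, hτ0, hτ4, hE⟩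
  dsimp only at ha2 hane hτ0 hτ4 hE
  have hρ0 : ρ ≠ 0 := by
    rintro rfl
    have := hρ.mul
    rw [zero_mul] at this
    exact zero_ne_one this
  have hr2 : fr φ 2 ρ = ρ⁻¹ := eq_inv_of_mul_eq_one_right hρ.mul
  have hr4 : fr φ 4 ρ = ρ := by
    have : fr φ 4 ρ = fr φ 2 (fr φ 2 ρ) := by rw [fr_fr]
    rw [this, hr2, map_inv₀, hr2, inv_inv]
  have hr6 : fr φ 6 ρ = ρ⁻¹ := by
    have : fr φ 6 ρ = fr φ 2 (fr φ 4 ρ) := by rw [fr_fr]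
    rw [this, hr4, hr2]
  have ha0 : a ≠ 0 := by
    rintro rfl
    rw [zero_mul] at ha2
    exact zero_ne_one ha2
  have ha4 : fr φ 4 a = a⁻¹ := eq_inv_of_mul_eq_one_right ha2
  have ha6 : fr φ 6 a = (fr φ 2 a)⁻¹ := by
    have : fr φ 6 a = fr φ 2 (fr φ 4 a) := by rw [fr_fr]
    rw [this, ha4, map_inv₀]
  have hτ6 : fr φ 6 τ = fr φ 2 τ := by
    have : fr φ 6 τ = fr φ 2 (fr φ 4 τ) := by rw [fr_fr]
    rw [this, hτ4]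
  have h8 : ∀ x : K, fr φ 8 x = x := h.ord
  have ha1 : fr φ 2 a ≠ 0 := (_root_.map_ne_zero _).2 ha0
  have h2 : (2 : K) = 0 := h.two
  rw [uniu_fl h, uniu_Hm, uniu_Hn, uniu_th, uniu_expand h]
  simp only [smul_add, uniuE_X, tt, map_add, map_mul, map_one,
    map_inv₀, fr_fr, Nat.reduceAdd, h8, hr2, hr4, hr6, ha4, ha6, hτ4, hτ6, inv_inv]
  generalize fr φ 2 a = a1 at *
  generalize fr φ 2 τ = τ1 at *
  have e5 : ρ * a1⁻¹ * (1 + ρ⁻¹) * a1 = 1 + ρ := by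
    field_simp
    ring
  have e6 : τ1 * (1 + a1⁻¹ * a) * (1 + ρ) * a⁻¹ + ρ * a1⁻¹ * (1 + ρ⁻¹) *
      (τ1 * (1 + a1 * a⁻¹)) = 0 := by
    have : τ1 * (1 + a1⁻¹ * a) * (1 + ρ) * a⁻¹ + ρ * a1⁻¹ * (1 + ρ⁻¹) *
        (τ1 * (1 + a1 * a⁻¹)) = 2 * (τ1 * (1 + ρ) * (a + a1) * a1⁻¹ * a⁻¹) := by
      field_simp
      ring
    rw [this, h2, zero_mul]
  have e7 : a * (1 + ρ⁻¹) * a1⁻¹ + τ1 * (1 + a1⁻¹ * a) * (1 + ρ) * (τ * (1 + a⁻¹ * a1⁻¹)) +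
      (ρ * a1⁻¹ * (1 + ρ⁻¹) * (ρ⁻¹ * a⁻¹) + ρ * a1⁻¹ * (1 + ρ) * a1⁻¹) = ρ + ρ ^ 2 := by
    have i1 : a * (1 + ρ⁻¹) * a1⁻¹ + τ1 * (1 + a1⁻¹ * a) * (1 + ρ) * (τ * (1 + a⁻¹ * a1⁻¹)) +
        (ρ * a1⁻¹ * (1 + ρ⁻¹) * (ρ⁻¹ * a⁻¹) + ρ * a1⁻¹ * (1 + ρ) * a1⁻¹) =
        (1 + ρ) * (a * ρ⁻¹ * a1⁻¹ + τ * τ1 * (a + a1) * (1 + a * a1) * (a⁻¹ * a1⁻¹ * a1⁻¹) +
          ρ⁻¹ * a⁻¹ * a1⁻¹ + ρ * a1⁻¹ * a1⁻¹) := by
      field_simp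
      ring
    have i2 : (1 + ρ) * (a * ρ⁻¹ * a1⁻¹ + (ρ * a * (1 + a1 ^ 2) + ρ⁻¹ * a1 * (1 + a ^ 2)) *
        (a⁻¹ * a1⁻¹ * a1⁻¹) + ρ⁻¹ * a⁻¹ * a1⁻¹ + ρ * a1⁻¹ * a1⁻¹) =
        ρ + ρ ^ 2 + 2 * ((1 + ρ) * (a * ρ⁻¹ * a1⁻¹ + ρ * a1⁻¹ * a1⁻¹ + ρ⁻¹ * a⁻¹ * a1⁻¹)) := by
      field_simp
      ring
    rw [i1, hE, i2, h2, zero_mul, add_zero]
  have e8 : a * (1 + ρ⁻¹) * (τ1 * (1 + a1⁻¹ * a)) + τ1 * (1 + a1⁻¹ * a) * (1 + ρ) * (ρ * a1⁻¹) +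
      (τ1 * (1 + a1⁻¹ * a) * (1 + ρ⁻¹) * a + ρ * a1⁻¹ * (1 + ρ) *
        (τ1 * (1 + a1⁻¹ * a))) = 0 := by
    linear_combination (a * (1 + ρ⁻¹) * (τ1 * (1 + a1⁻¹ * a)) +
      ρ * a1⁻¹ * (1 + ρ) * (τ1 * (1 + a1⁻¹ * a))) * h2
  have e9 : a * (1 + ρ⁻¹) * (ρ⁻¹ * a) + a * (1 + ρ) * a1 +
      (τ1 * (1 + a1⁻¹ * a) * (1 + ρ⁻¹) * (τ * (1 + a * a1)) + ρ * a1⁻¹ * (1 + ρ) * (ρ⁻¹ * a)) =
      ρ⁻¹ + ρ⁻¹ ^ 2 := by
    have i1 : a * (1 + ρ⁻¹) * (ρ⁻¹ * a) + a * (1 + ρ) * a1 +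
        (τ1 * (1 + a1⁻¹ * a) * (1 + ρ⁻¹) * (τ * (1 + a * a1)) +
          ρ * a1⁻¹ * (1 + ρ) * (ρ⁻¹ * a)) =
        (1 + ρ) * (a * a * ρ⁻¹ * ρ⁻¹ + a * a1 + τ * τ1 * (a + a1) * (1 + a * a1) *
          (a1⁻¹ * ρ⁻¹) + a * a1⁻¹) := by
      field_simp
      ring
    have i2 : (1 + ρ) * (a * a * ρ⁻¹ * ρ⁻¹ + a * a1 + (ρ * a * (1 + a1 ^ 2) +
        ρ⁻¹ * a1 * (1 + a ^ 2)) * (a1⁻¹ * ρ⁻¹) + a * a1⁻¹) =
        ρ⁻¹ + ρ⁻¹ ^ 2 + 2 * ((1 + ρ) * (a * a * ρ⁻¹ * ρ⁻¹ + a * a1 + a * a1⁻¹)) := by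
      field_simp
      ring
    rw [i1, hE, i2, h2, zero_mul, add_zero]
  have e10 : a * (1 + ρ) * (τ1 * (1 + a1 * a⁻¹)) + τ1 * (1 + a1⁻¹ * a) * (1 + ρ⁻¹) *
      (ρ * a1) = 0 := by
    have : a * (1 + ρ) * (τ1 * (1 + a1 * a⁻¹)) + τ1 * (1 + a1⁻¹ * a) * (1 + ρ⁻¹) *
        (ρ * a1) = 2 * ((1 + ρ) * τ1 * (a + a1)) := by
      field_simp
      ring
    rw [this, h2, zero_mul]
  have e11 : a * (1 + ρ) * (ρ⁻¹ * a⁻¹) = 1 + ρ⁻¹ := by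
    field_simp
    ring
  rw [e5, e6, e7, e8, e9, e10, e11, uniuE_zero, uniuE_zero, uniuE_zero]
  simp only [add_zero]

end Pool.Agent.Helper69.GU
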